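import Mathlib

/-!
Category dichotomy for ideal achievement sets: if `∑ x n` converges and the ideal achievement set
has the Baire property in the achievement set, then it is meager or comeager there.
-/

namespace Pool.Agent.Results.MP_dc2775_an.CategoryDichotomy

open Filter Topology Set

/-- An ideal of subsets of `ℕ` that contains all finite sets and does not contain `ℕ`. -/
structure IsIdeal (I : Set (Set ℕ)) : Prop where
  union : ∀ A ∈ I, ∀ B ∈ I, A ∪ B ∈ I
  subset : ∀ A ∈ I, ∀ B, B ⊆ A → B ∈ I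
  finite : ∀ A : Set ℕ, A.Finite → A ∈ I
  proper : (Set.univ : Set ℕ) ∉ I

/-- The series `∑_{n ∈ A} x n` (in the natural order) converges to `s`. -/
def Sums (x : ℕ → ℝ) (A : Set ℕ) (s : ℝ) : Prop :=
  Tendsto (fun N => ∑ n ∈ Finset.range N, A.indicator x n) atTop (𝓝 s)

/-- The achievement set. -/
def achievement (x : ℕ → ℝ) : Set ℝ := {s | ∃ A : Set ℕ, Sums x A s}

/-- The ideal achievement set. -/
def idealAchievement (I : Set (Set ℕ)) (x : ℕ → ℝ) : Set ℝ := {s | ∃ A ∈ I, Sums x A s}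

/-! ### Relative meagerness -/

/-- `S` is covered by countably many closed subsets of the line that are nowhere dense relative
to `K`. -/
def RM (K S : Set ℝ) : Prop :=
  ∃ C : Set (Set ℝ), C.Countable ∧ S ⊆ ⋃₀ C ∧
    ∀ N ∈ C, IsClosed N ∧ ∀ W, IsOpen W → (W ∩ K).Nonempty → ¬ (W ∩ K ⊆ N)

theorem RM.mono {K S T : Set ℝ} (h : RM K T) (hST : S ⊆ T) : RM K S := by
  obtain ⟨C, hC, hT, hN⟩ := h
  exact ⟨C, hC, hST.trans hT, hN⟩

theorem RM.iUnion {ι : Type} [Countable ι] {K : Set ℝ} {S : ι → Set ℝ} (h : ∀ i, RM K (S i)) :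
    RM K (⋃ i, S i) := by
  choose C hC hS hN using h
  refine ⟨⋃ i, C i, Set.countable_iUnion hC, ?_, ?_⟩
  · intro x hx
    obtain ⟨i, hi⟩ := Set.mem_iUnion.1 hx
    obtain ⟨N, hN1, hN2⟩ := hS i hi
    exact ⟨N, Set.mem_iUnion_of_mem i hN1, hN2⟩
  · intro N hN1
    obtain ⟨i, hi⟩ := Set.mem_iUnion.1 hN1
    exact hN i N hi

theorem RM.union {K S T : Set ℝ} (h1 : RM K S) (h2 : RM K T) : RM K (S ∪ T) := by
  rw [Set.union_eq_iUnion]
  apply RM.iUnion
  intro b
  cases b
  · exact h2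
  · exact h1

theorem RM.of_closed {K N : Set ℝ} (hN : IsClosed N)
    (h : ∀ W, IsOpen W → (W ∩ K).Nonempty → ¬ (W ∩ K ⊆ N)) : RM K N :=
  ⟨{N}, Set.countable_singleton N, by simp, by
    rintro M hM
    rw [Set.mem_singleton_iff] at hM
    subst hM
    exact ⟨hN, h⟩⟩

/-- Translation invariance of meagerness in the line. -/
theorem RM.translate {S : Set ℝ} (h : RM Set.univ S) (c : ℝ) :
    RM Set.univ ((fun t => c + t) '' S) := by
  obtain ⟨C, hC, hS, hN⟩ := h
  refine ⟨(fun N => (fun t => c + t) '' N) '' C, hC.image _, ?_, ?_⟩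
  · rintro _ ⟨t, ht, rfl⟩
    obtain ⟨N, hN1, hN2⟩ := hS ht
    exact ⟨_, ⟨N, hN1, rfl⟩, ⟨t, hN2, rfl⟩⟩
  · rintro _ ⟨N, hN1, rfl⟩
    obtain ⟨hcl, hnd⟩ := hN N hN1
    refine ⟨(Homeomorph.addLeft c).isClosedMap N hcl, ?_⟩
    intro W hW hne hsub
    refine hnd ((fun t => c + t) ⁻¹' W) (hW.preimage (by fun_prop)) ?_ ?_
    · obtain ⟨w, hw, -⟩ := hne
      refine ⟨w - c, ?_, trivial⟩
      show c + (w - c) ∈ W
      simpa using hw
    · rintro t ⟨ht, -⟩
      obtain ⟨u, hu, hu2⟩ := hsub ⟨ht, trivial⟩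
      have : u = t := by
        have h3 : c + u = c + t := hu2
        linarith
      rw [← this]; exact hu

/-- Relative meagerness in a closed set implies meagerness in the line. -/
theorem RM.to_univ {K S : Set ℝ} (hK : IsClosed K) (hS : S ⊆ K) (h : RM K S) :
    RM Set.univ S := by
  obtain ⟨C, hC, hSC, hN⟩ := h
  refine ⟨(fun N => N ∩ K) '' C, hC.image _, ?_, ?_⟩
  · intro t ht
    obtain ⟨N, hN1, hN2⟩ := hSC ht
    exact ⟨_, ⟨N, hN1, rfl⟩, ⟨hN2, hS ht⟩⟩
  · rintro _ ⟨N, hN1, rfl⟩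
    obtain ⟨hcl, hnd⟩ := hN N hN1
    refine ⟨hcl.inter hK, ?_⟩
    rintro W hW ⟨w, hw, -⟩ hsub
    refine hnd W hW ⟨w, hw, (hsub ⟨hw, trivial⟩).2⟩ ?_
    rintro t ⟨ht, -⟩
    exact (hsub ⟨ht, trivial⟩).1

/-- Meagerness in the line implies relative meagerness in a regular closed set. -/
theorem RM.of_univ {K S : Set ℝ} (hK : K ⊆ closure (interior K)) (h : RM Set.univ S) :
    RM K S := by
  obtain ⟨C, hC, hSC, hN⟩ := h
  refine ⟨C, hC, hSC, ?_⟩
  intro N hN1
  obtain ⟨hcl, hnd⟩ := hN N hN1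
  refine ⟨hcl, ?_⟩
  rintro W hW ⟨w, hw, hwK⟩ hsub
  obtain ⟨z, hz1, hz2⟩ := mem_closure_iff.1 (hK hwK) W hW hw
  refine hnd (W ∩ interior K) (hW.inter isOpen_interior) ⟨z, ⟨hz1, hz2⟩, trivial⟩ ?_
  rintro t ⟨⟨ht1, ht2⟩, -⟩
  exact hsub ⟨ht1, interior_subset ht2⟩

/-- Local translation of relative meagerness. -/
theorem RM.local_translate {K G : Set ℝ} {a b ρ : ℝ} (hρ : 0 < ρ)
    (hK : ∀ s, |s| < ρ → (b + s ∈ K ↔ a + s ∈ K))
    (hG : ∀ s, |s| < ρ → (b + s ∈ G ↔ a + s ∈ G))
    (h : RM K (G ∩ Set.Ioo (a - ρ) (a + ρ))) :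
    RM K (G ∩ Set.Icc (b - ρ / 2) (b + ρ / 2)) := by
  obtain ⟨C, hC, hSC, hN⟩ := h
  refine ⟨(fun N => (fun t => (b - a) + t) '' (N ∩ Set.Icc (a - ρ / 2) (a + ρ / 2))) '' C,
    hC.image _, ?_, ?_⟩
  · rintro t ⟨htG, ht1, ht2⟩
    have habs : |t - b| < ρ := by rw [abs_lt]; constructor <;> linarith
    have h1 : a + (t - b) ∈ G := by
      rw [← hG (t - b) habs]
      have : b + (t - b) = t := by ring
      rwa [this]
    obtain ⟨N, hN1, hN2⟩ := hSC ⟨h1, by constructor <;> linarith⟩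
    refine ⟨_, ⟨N, hN1, rfl⟩, a + (t - b), ⟨hN2, by constructor <;> linarith⟩, ?_⟩
    show (b - a) + (a + (t - b)) = t
    ring
  · rintro _ ⟨N, hN1, rfl⟩
    obtain ⟨hcl, hnd⟩ := hN N hN1
    refine ⟨(Homeomorph.addLeft (b - a)).isClosedMap _ (hcl.inter isClosed_Icc), ?_⟩
    rintro W hW ⟨w, hwW, hwK⟩ hsub
    obtain ⟨v, ⟨hvN, hv1, hv2⟩, hv⟩ := hsub ⟨hwW, hwK⟩
    have hv' : (b - a) + v = w := hv
    have habs : |v - a| < ρ := by rw [abs_lt]; constructor <;> linarith
    refine hnd ((fun t => (b - a) + t) ⁻¹' W ∩ Set.Ioo (a - ρ) (a + ρ))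
      ((hW.preimage (by fun_prop)).inter isOpen_Ioo) ⟨v, ⟨?_, ?_, ?_⟩, ?_⟩ ?_
    · show (b - a) + v ∈ W
      rw [hv']; exact hwW
    · linarith
    · linarith
    · have h2 := (hK (v - a) habs).1 (by
        have : b + (v - a) = w := by rw [← hv']; ring
        rw [this]; exact hwK)
      have : a + (v - a) = v := by ring
      rwa [this] at h2
    · rintro q ⟨⟨hq1, hq2, hq3⟩, hqK⟩
      have habs' : |q - a| < ρ := by rw [abs_lt]; constructor <;> linarith
      have h3 := (hK (q - a) habs').2 (by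
        have : a + (q - a) = q := by ring
        rwa [this])
      have h4 : (b - a) + q = b + (q - a) := by ring
      obtain ⟨u, ⟨huN, -, -⟩, hu⟩ := hsub ⟨hq1, by
        show (b - a) + q ∈ K
        rw [h4]; exact h3⟩
      have h5 : (b - a) + u = (b - a) + q := hu
      have : u = q := by linarith
      rw [← this]; exact huN

/-- If `G` is relatively meager near a dense set of points of `K`, it is relatively meager. -/
theorem RM.of_local {K G : Set ℝ}
    (h : ∀ W, IsOpen W → (W ∩ K).Nonempty →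
      ∃ s ∈ W ∩ K, ∃ ρ > 0, RM K (G ∩ Set.Ioo (s - ρ) (s + ρ))) : RM K G := by
  let O : Set ℝ := {s | ∃ ρ > 0, RM K (G ∩ Set.Ioo (s - ρ) (s + ρ))}
  have hO : IsOpen O := by
    rw [Metric.isOpen_iff]
    rintro s ⟨ρ, hρ, hs⟩
    refine ⟨ρ / 2, by linarith, ?_⟩
    intro t ht
    rw [Metric.mem_ball, Real.dist_eq, abs_lt] at ht
    refine ⟨ρ / 2, by linarith, hs.mono ?_⟩
    rintro u ⟨hu, hu1, hu2⟩
    exact ⟨hu, by linarith, by linarith⟩
  have h1 : RM K (G ∩ O) := by
    have h2 : RM K (⋃ p : {p : ℚ × ℚ // RM K (G ∩ Set.Ioo (p.1 : ℝ) (p.2 : ℝ))},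
        G ∩ Set.Ioo (p.1.1 : ℝ) (p.1.2 : ℝ)) := RM.iUnion fun p => p.2
    apply h2.mono
    rintro s ⟨hsG, ρ, hρ, hs⟩
    obtain ⟨q1, hq1, hq1'⟩ := exists_rat_btwn (show s - ρ < s by linarith)
    obtain ⟨q2, hq2, hq2'⟩ := exists_rat_btwn (show s < s + ρ by linarith)
    refine Set.mem_iUnion.2 ⟨⟨(q1, q2), hs.mono ?_⟩, hsG, hq1', hq2⟩
    rintro u ⟨hu, hu1, hu2⟩
    exact ⟨hu, hq1.trans hu1, hu2.trans hq2'⟩
  have h3 : RM K Oᶜ := by
    apply RM.of_closed hO.isClosed_compl
    intro W hW hne hsub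
    obtain ⟨s, hs, hρ⟩ := h W hW hne
    exact hsub hs hρ
  apply (h1.union h3).mono
  intro s hs
  by_cases hsO : s ∈ O
  · exact Or.inl ⟨hs, hsO⟩
  · exact Or.inr hsO

/-- Relative meagerness and meagerness in the subspace. -/
theorem isMeagre_iff_RM {K G : Set ℝ} :
    IsMeagre ((↑) ⁻¹' G : Set K) ↔ RM K (G ∩ K) := by
  constructor
  · intro h
    rw [isMeagre_iff_countable_union_isNowhereDense] at h
    obtain ⟨S, hnd, hS, hsub⟩ := h
    refine ⟨(fun t : Set K => closure ((↑) '' t : Set ℝ)) '' S, hS.image _, ?_, ?_⟩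
    · rintro s ⟨hsG, hsK⟩
      obtain ⟨t, ht, hst⟩ := hsub (show (⟨s, hsK⟩ : K) ∈ ((↑) ⁻¹' G : Set K) from hsG)
      exact ⟨_, ⟨t, ht, rfl⟩, subset_closure ⟨_, hst, rfl⟩⟩
    · rintro _ ⟨t, ht, rfl⟩
      refine ⟨isClosed_closure, ?_⟩
      rintro W hW ⟨w, hwW, hwK⟩ hsub'
      have h1 : ((↑) ⁻¹' W : Set K) ⊆ interior (closure t) := by
        apply interior_maximal
        · intro z hz
          rw [closure_subtype]
          exact hsub' ⟨hz, z.2⟩
        · exact hW.preimage continuous_subtype_val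
      have h2 := hnd t ht
      rw [IsNowhereDense] at h2
      rw [h2] at h1
      exact h1 (show (⟨w, hwK⟩ : K) ∈ ((↑) ⁻¹' W : Set K) from hwW)
  · rintro ⟨C, hC, hsub, hN⟩
    rw [isMeagre_iff_countable_union_isNowhereDense]
    refine ⟨(fun N : Set ℝ => ((↑) ⁻¹' N : Set K)) '' C, ?_, hC.image _, ?_⟩
    · rintro _ ⟨N, hN1, rfl⟩
      obtain ⟨hcl, hnd⟩ := hN N hN1
      rw [IsClosed.isNowhereDense_iff (hcl.preimage continuous_subtype_val)]
      by_contra hne
      rw [← Ne, ← Set.nonempty_iff_ne_empty] at hne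
      obtain ⟨z, hz⟩ := hne
      obtain ⟨W, hW, hWeq⟩ := isOpen_induced_iff.1
        (isOpen_interior (s := ((↑) ⁻¹' N : Set K)))
      have hzW : (z : ℝ) ∈ W := by
        have : z ∈ ((↑) ⁻¹' W : Set K) := by rw [hWeq]; exact hz
        exact this
      refine hnd W hW ⟨z, hzW, z.2⟩ ?_
      rintro t ⟨htW, htK⟩
      have h3 : (⟨t, htK⟩ : K) ∈ interior ((↑) ⁻¹' N : Set K) := by
        rw [← hWeq]; exact htW
      have h4 : (⟨t, htK⟩ : K) ∈ ((↑) ⁻¹' N : Set K) := interior_subset h3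
      exact h4
    · intro z hz
      obtain ⟨N, hN1, hN2⟩ := hsub ⟨hz, z.2⟩
      exact ⟨_, ⟨N, hN1, rfl⟩, hN2⟩

/-! ### Sums -/

theorem Sums.union {x : ℕ → ℝ} {A B : Set ℕ} {s t : ℝ} (hAB : Disjoint A B) (hA : Sums x A s)
    (hB : Sums x B t) : Sums x (A ∪ B) (s + t) := by
  have h := Filter.Tendsto.add hA hB
  refine h.congr fun N => ?_
  rw [← Finset.sum_add_distrib]
  apply Finset.sum_congr rfl
  intro n _
  rw [Set.indicator_union_of_disjoint hAB]

theorem Sums.sub {x : ℕ → ℝ} {A B : Set ℕ} {s t : ℝ} (hBA : B ⊆ A) (hA : Sums x A s)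
    (hB : Sums x B t) : Sums x (A \ B) (s - t) := by
  have h := Filter.Tendsto.sub hA hB
  refine h.congr fun N => ?_
  rw [← Finset.sum_sub_distrib]
  apply Finset.sum_congr rfl
  intro n _
  rw [Set.indicator_sdiff' hBA]
  rfl

theorem sums_finset (x : ℕ → ℝ) (F : Finset ℕ) : Sums x F (∑ n ∈ F, x n) := by
  refine tendsto_const_nhds.congr' ?_
  filter_upwards [Filter.eventually_ge_atTop (F.sup id + 1)] with N hN
  have hsub : F ⊆ Finset.range N := by
    intro n hn
    have : n ≤ F.sup id := Finset.le_sup (f := id) hn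
    exact Finset.mem_range.2 (by omega)
  rw [Finset.sum_indicator_subset x hsub]

theorem Sums.unique {x : ℕ → ℝ} {A : Set ℕ} {s t : ℝ} (h : Sums x A s) (h' : Sums x A t) :
    s = t := tendsto_nhds_unique h h'

/-- The sums over members of `J` consisting of indices at least `m`. -/
def P (J : Set (Set ℕ)) (x : ℕ → ℝ) (m : ℕ) : Set ℝ :=
  {s | ∃ A ∈ J, (∀ n ∈ A, m ≤ n) ∧ Sums x A s}

/-- What we need to know about the families of index sets. -/
structure Good (J : Set (Set ℕ)) : Prop where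
  subset : ∀ A ∈ J, ∀ B, B ⊆ A → B ∈ J
  union : ∀ A ∈ J, ∀ F : Finset ℕ, A ∪ (F : Set ℕ) ∈ J

theorem good_ideal {I : Set (Set ℕ)} (hI : IsIdeal I) : Good I :=
  ⟨hI.subset, fun A hA F => hI.union A hA _ (hI.finite _ F.finite_toSet)⟩

theorem good_univ : Good (Set.univ : Set (Set ℕ)) := ⟨fun _ _ _ _ => trivial, fun _ _ _ => trivial⟩

theorem achievement_eq (x : ℕ → ℝ) : achievement x = P Set.univ x 0 := by
  ext s
  constructor
  · rintro ⟨A, hA⟩
    exact ⟨A, trivial, fun n _ => Nat.zero_le n, hA⟩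
  · rintro ⟨A, -, -, hA⟩
    exact ⟨A, hA⟩

theorem idealAchievement_eq (I : Set (Set ℕ)) (x : ℕ → ℝ) : idealAchievement I x = P I x 0 := by
  ext s
  constructor
  · rintro ⟨A, hI, hA⟩
    exact ⟨A, hI, fun n _ => Nat.zero_le n, hA⟩
  · rintro ⟨A, hI, -, hA⟩
    exact ⟨A, hI, hA⟩

theorem P_split {J : Set (Set ℕ)} (hJ : Good J) (x : ℕ → ℝ) (m : ℕ) {s : ℝ} (hs : s ∈ P J x 0) :
    ∃ F ∈ (Finset.range m).powerset, s - ∑ n ∈ F, x n ∈ P J x m := by
  classical
  obtain ⟨A, hAJ, -, hA⟩ := hs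
  refine ⟨(Finset.range m).filter (· ∈ A), Finset.mem_powerset.2 (Finset.filter_subset _ _), ?_⟩
  set F := (Finset.range m).filter (· ∈ A) with hF
  have hFA : (F : Set ℕ) ⊆ A := by
    intro n hn
    exact (Finset.mem_filter.1 hn).2
  refine ⟨A \ F, hJ.subset A hAJ _ Set.sdiff_subset, ?_, hA.sub hFA (sums_finset x F)⟩
  rintro n ⟨hn, hnF⟩
  by_contra hlt
  exact hnF (Finset.mem_coe.2 (Finset.mem_filter.2 ⟨Finset.mem_range.2 (not_le.1 hlt), hn⟩))

theorem P_join {J : Set (Set ℕ)} (hJ : Good J) (x : ℕ → ℝ) {m : ℕ} {F : Finset ℕ}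
    (hF : F ∈ (Finset.range m).powerset) {t : ℝ} (ht : t ∈ P J x m) :
    ∑ n ∈ F, x n + t ∈ P J x 0 := by
  obtain ⟨A, hAJ, hAm, hA⟩ := ht
  refine ⟨(F : Set ℕ) ∪ A, ?_, fun n _ => Nat.zero_le n, (sums_finset x F).union ?_ hA⟩
  · rw [Set.union_comm]
    exact hJ.union A hAJ F
  · rw [Set.disjoint_left]
    intro n hn hnA
    have h1 := Finset.mem_range.1 (Finset.mem_powerset.1 hF hn)
    have h2 := hAm n hnA
    omega

theorem P_mono {J : Set (Set ℕ)} (x : ℕ → ℝ) {m m' : ℕ} (h : m ≤ m') : P J x m' ⊆ P J x m := by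
  rintro s ⟨A, hAJ, hAm, hA⟩
  exact ⟨A, hAJ, fun n hn => h.trans (hAm n hn), hA⟩

theorem P_subset_univ (J : Set (Set ℕ)) (x : ℕ → ℝ) (m : ℕ) : P J x m ⊆ P Set.univ x m := by
  rintro s ⟨A, -, hAm, hA⟩
  exact ⟨A, trivial, hAm, hA⟩

/-! ### The conditionally convergent case -/

/-- The tails of a convergent subseries are eventually small. -/
theorem P_split_small {J : Set (Set ℕ)} (hJ : Good J) (x : ℕ → ℝ) {s : ℝ} (hs : s ∈ P J x 0)
    (m0 : ℕ) {ε : ℝ} (hε : 0 < ε) :
    ∃ m, m0 ≤ m ∧ ∃ F ∈ (Finset.range m).powerset, ∃ t ∈ P J x m ∩ Set.Ioo (-ε) ε,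
      ∑ n ∈ F, x n + t = s := by
  classical
  obtain ⟨A, hAJ, -, hA⟩ := hs
  obtain ⟨N0, hN0⟩ := Metric.tendsto_atTop.1 hA ε hε
  set m := max m0 N0 with hm
  refine ⟨m, le_max_left _ _, (Finset.range m).filter (· ∈ A),
    Finset.mem_powerset.2 (Finset.filter_subset _ _), ?_⟩
  set F := (Finset.range m).filter (· ∈ A) with hF
  have hFA : (F : Set ℕ) ⊆ A := by
    intro n hn
    exact (Finset.mem_filter.1 hn).2
  have hsum : ∑ n ∈ Finset.range m, A.indicator x n = ∑ n ∈ F, x n := by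
    rw [hF, Finset.sum_filter]
    apply Finset.sum_congr rfl
    intro n _
    rfl
  have hd := hN0 m (le_max_right _ _)
  rw [hsum, Real.dist_eq, abs_lt] at hd
  refine ⟨s - ∑ n ∈ F, x n, ⟨⟨A \ F, hJ.subset A hAJ _ Set.sdiff_subset, ?_,
    hA.sub hFA (sums_finset x F)⟩, by linarith, by linarith⟩, by ring⟩
  rintro n ⟨hn, hnF⟩
  by_contra hlt
  exact hnF (Finset.mem_coe.2 (Finset.mem_filter.2 ⟨Finset.mem_range.2 (not_le.1 hlt), hn⟩))

theorem core_line {J : Set (Set ℕ)} (hJ : Good J) (x : ℕ → ℝ)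
    (hfull : P Set.univ x 0 = Set.univ) {V : Set ℝ} (hV : IsOpen V) (hne : V.Nonempty)
    (hGV : RM Set.univ (P J x 0 ∩ V)) : RM Set.univ (P J x 0) := by
  obtain ⟨p, hp⟩ := hne
  -- a finite subsum inside `V`
  obtain ⟨ε0, hε0, hball⟩ := Metric.isOpen_iff.1 hV p hp
  have hpP : p ∈ P Set.univ x 0 := by rw [hfull]; trivial
  obtain ⟨m0, -, F0, hF0, t0, ⟨-, ht1, ht2⟩, hpt⟩ :=
    P_split_small good_univ x hpP 0 (show 0 < ε0 / 2 by linarith)
  have hF0' := Finset.mem_powerset.1 hF0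
  set ε := ε0 / 2 with hε
  have hεpos : 0 < ε := by rw [hε]; linarith
  -- small tails
  have hT : ∀ m, m0 ≤ m → RM Set.univ (P J x m ∩ Set.Ioo (-ε) ε) := by
    intro m hm
    have h1 : (fun t => ∑ n ∈ F0, x n + t) '' (P J x m ∩ Set.Ioo (-ε) ε) ⊆ P J x 0 ∩ V := by
      rintro _ ⟨t, ⟨ht, ht3, ht4⟩, rfl⟩
      refine ⟨P_join hJ x (Finset.mem_powerset.2 (hF0'.trans (by
        intro a ha
        simp only [Finset.mem_range] at ha ⊢
        omega))) ht, hball ?_⟩
      rw [Metric.mem_ball, Real.dist_eq, abs_lt]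
      constructor <;> (show _ < _; simp only []; linarith)
    have h2 := (hGV.mono h1).translate (-(∑ n ∈ F0, x n))
    apply h2.mono
    rintro t ht
    exact ⟨_, ⟨t, ht, rfl⟩, by simp⟩
  have h3 : RM Set.univ (⋃ q : {q : ℕ × Finset ℕ // m0 ≤ q.1},
      (fun t => ∑ n ∈ q.1.2, x n + t) '' (P J x q.1.1 ∩ Set.Ioo (-ε) ε)) :=
    RM.iUnion fun q => (hT q.1.1 q.2).translate _
  apply h3.mono
  intro s hs
  obtain ⟨m, hm, F, hF, t, ht, hst⟩ := P_split_small hJ x hs m0 hεpos
  exact Set.mem_iUnion.2 ⟨⟨(m, F), hm⟩, t, ht, hst⟩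

/-- Partial sums of positive terms over the greedy set. -/
theorem full_of_not_summable (x : ℕ → ℝ) (hconv : ∃ s, Sums x Set.univ s)
    (hns : ¬ Summable fun n => |x n|) : P Set.univ x 0 = Set.univ := by
  classical
  obtain ⟨S, hS⟩ := hconv
  have hS' : Tendsto (fun N => ∑ n ∈ Finset.range N, x n) atTop (𝓝 S) := by
    refine hS.congr fun N => ?_
    simp
  have hx0 : Tendsto x atTop (𝓝 0) := by
    have h1 := (hS'.comp (tendsto_add_atTop_nat 1)).sub hS'
    rw [sub_self] at h1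
    refine h1.congr fun N => ?_
    simp [Finset.sum_range_succ]
  -- bounded positive part or negative part sums are impossible
  have hbdd : ∀ c : ℝ, ∀ σ : ℝ, (σ = 1 ∨ σ = -1) →
      ¬ ∀ N, ∑ n ∈ Finset.range N, max (σ * x n) 0 ≤ c := by
    intro c σ hσ hb
    apply hns
    have hsp : Summable fun n => max (σ * x n) 0 :=
      summable_of_sum_range_le (fun n => le_max_right _ _) hb
    obtain ⟨M, hM⟩ : ∃ M, ∀ N, |∑ n ∈ Finset.range N, x n| ≤ M := by
      obtain ⟨M, hM⟩ := (hS'.norm).bddAbove_range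
      exact ⟨M, fun N => hM ⟨N, rfl⟩⟩
    apply summable_of_sum_range_le (c := 2 * c + M) (fun n => abs_nonneg _)
    intro N
    have h1 : ∀ n, |x n| = 2 * max (σ * x n) 0 - σ * x n := by
      intro n
      rcases hσ with rfl | rfl
      · rcases le_total 0 (x n) with h | h
        · rw [abs_of_nonneg h, one_mul, max_eq_left h]; ring
        · rw [abs_of_nonpos h, one_mul, max_eq_right h]; ring
      · rcases le_total 0 (x n) with h | h
        · rw [abs_of_nonneg h, max_eq_right (by linarith)]; ring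
        · rw [abs_of_nonpos h, max_eq_left (by linarith)]; ring
    simp_rw [h1]
    rw [Finset.sum_sub_distrib, ← Finset.mul_sum, ← Finset.mul_sum]
    have h2 := hb N
    have h3 := hM N
    have h4 : |σ| = 1 := by rcases hσ with rfl | rfl <;> simp
    have h5 : -(σ * ∑ n ∈ Finset.range N, x n) ≤ |∑ n ∈ Finset.range N, x n| := by
      calc -(σ * ∑ n ∈ Finset.range N, x n) ≤ |σ * ∑ n ∈ Finset.range N, x n| := neg_le_abs _
        _ = |∑ n ∈ Finset.range N, x n| := by rw [abs_mul, h4, one_mul]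
    linarith
  rw [Set.eq_univ_iff_forall]
  intro t
  -- finitely many negative terms bring us below `t`
  obtain ⟨M, hM⟩ : ∃ M, ∑ n ∈ (Finset.range M).filter (fun n => x n < 0), x n < t := by
    by_contra hcon
    push Not at hcon
    apply hbdd (-t) (-1) (Or.inr rfl)
    intro N
    have h1 := hcon N
    have h2 : ∑ n ∈ Finset.range N, max (-1 * x n) 0 =
        -∑ n ∈ (Finset.range N).filter (fun n => x n < 0), x n := by
      rw [Finset.sum_filter, ← Finset.sum_neg_distrib]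
      apply Finset.sum_congr rfl
      intro n _
      split_ifs with h
      · rw [max_eq_left (by linarith)]; ring
      · rw [max_eq_right (by push Not at h; linarith)]; ring
    rw [h2]
    linarith
  set F0 := (Finset.range M).filter (fun n => x n < 0) with hF0
  set s0 := ∑ n ∈ F0, x n with hs0
  -- greedy sums of positive terms from `M` on
  let g : ℕ → ℝ := fun n => Nat.rec s0
    (fun n y => if 0 < x (M + n) ∧ y + x (M + n) ≤ t then y + x (M + n) else y) n
  have hg0 : g 0 = s0 := rfl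
  have hgs : ∀ n, g (n + 1) = if 0 < x (M + n) ∧ g n + x (M + n) ≤ t then g n + x (M + n)
      else g n := fun n => rfl
  have hgt : ∀ n, g n ≤ t := by
    intro n
    induction n with
    | zero => rw [hg0]; exact hM.le
    | succ n ih =>
      rw [hgs]
      split_ifs with h
      · exact h.2
      · exact ih
  have hgm : Monotone g := monotone_nat_of_le_succ fun n => by
    rw [hgs]
    split_ifs with h
    · linarith [h.1]
    · exact le_rfl
  have hlim : Tendsto g atTop (𝓝 t) := by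
    have hb : BddAbove (Set.range g) := ⟨t, by rintro _ ⟨n, rfl⟩; exact hgt n⟩
    have hL := tendsto_atTop_ciSup hgm hb
    set L := ⨆ n, g n with hLdef
    have hLt : L ≤ t := ciSup_le hgt
    have hgL : ∀ n, g n ≤ L := fun n => le_ciSup hb n
    rcases hLt.eq_or_lt with h | h
    · rwa [h] at hL
    · exfalso
      obtain ⟨N, hN⟩ := Metric.tendsto_atTop.1 hx0 (t - L) (by linarith)
      have hstep : ∀ n, N ≤ n → g (n + 1) - g n = max (x (M + n)) 0 := by
        intro n hn
        have h1 := hN (M + n) (by omega)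
        rw [Real.dist_eq, sub_zero, abs_lt] at h1
        rw [hgs]
        by_cases h2 : 0 < x (M + n)
        · rw [if_pos ⟨h2, by linarith [hgL n, h1.2]⟩, max_eq_left h2.le]; ring
        · rw [if_neg (fun h3 => h2 h3.1), max_eq_right (not_lt.1 h2)]; ring
      have hsum : ∀ k, ∑ n ∈ Finset.range k, max (x (M + N + n)) 0 ≤ L - g N := by
        intro k
        have h1 : ∑ n ∈ Finset.range k, max (x (M + N + n)) 0 =
            ∑ n ∈ Finset.range k, (g (N + n + 1) - g (N + n)) := by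
          apply Finset.sum_congr rfl
          intro n _
          rw [hstep (N + n) (by omega)]
          congr 2
          omega
        rw [h1]
        have h2 : ∑ n ∈ Finset.range k, (g (N + n + 1) - g (N + n)) = g (N + k) - g N := by
          exact Finset.sum_range_sub (fun n => g (N + n)) k
        rw [h2]
        linarith [hgL (N + k)]
      apply hbdd (∑ n ∈ Finset.range (M + N), max (x n) 0 + (L - g N)) 1 (Or.inl rfl)
      intro K
      simp only [one_mul]
      calc ∑ n ∈ Finset.range K, max (x n) 0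
          ≤ ∑ n ∈ Finset.range (M + N + K), max (x n) 0 := by
            apply Finset.sum_le_sum_of_subset_of_nonneg
            · intro a ha
              simp only [Finset.mem_range] at ha ⊢
              omega
            · intro n _ _
              exact le_max_right _ _
        _ = ∑ n ∈ Finset.range (M + N), max (x n) 0 +
              ∑ n ∈ Finset.range K, max (x (M + N + n)) 0 := Finset.sum_range_add _ _ _
        _ ≤ _ := by linarith [hsum K]
  -- the index set
  let A : Set ℕ := {k | ∃ n, k = M + n ∧ 0 < x (M + n) ∧ g n + x (M + n) ≤ t}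
  have hA : Sums x A (t - s0) := by
    have h1 : Tendsto (fun N => g (N - M) - s0) atTop (𝓝 (t - s0)) :=
      (hlim.comp (tendsto_sub_atTop_nat M)).sub_const s0
    refine h1.congr' ?_
    filter_upwards [Filter.eventually_ge_atTop M] with N hN
    obtain ⟨k, rfl⟩ := Nat.exists_eq_add_of_le hN
    have h2 : M + k - M = k := by omega
    rw [h2, Finset.sum_range_add]
    have h3 : ∑ n ∈ Finset.range M, A.indicator x n = 0 := by
      apply Finset.sum_eq_zero
      intro n hn
      apply Set.indicator_of_notMem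
      rintro ⟨j, hj, -⟩
      have := Finset.mem_range.1 hn
      omega
    rw [h3, zero_add]
    clear h1 hN h2
    induction k with
    | zero => simp [hg0]
    | succ k ih =>
      rw [Finset.sum_range_succ, ← ih, hgs]
      by_cases h : 0 < x (M + k) ∧ g k + x (M + k) ≤ t
      · rw [if_pos h, Set.indicator_of_mem (show M + k ∈ A from ⟨k, rfl, h⟩)]
        ring
      · rw [if_neg h, Set.indicator_of_notMem]
        · ring
        · rintro ⟨j, hj, hj2⟩
          have : k = j := by omega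
          subst this
          exact h hj2
  have h2 := (sums_finset x F0).union (A := (F0 : Set ℕ)) (B := A) (by
    rw [Set.disjoint_left]
    rintro n hn ⟨j, hj, -⟩
    have h3 := Finset.mem_range.1 (Finset.mem_filter.1 (Finset.mem_coe.1 hn)).1
    omega) hA
  exact ⟨_, trivial, fun n _ => Nat.zero_le n, by
    have : ∑ n ∈ F0, x n + (t - s0) = t := by rw [← hs0]; ring
    rwa [this] at h2⟩

/-! ### The absolutely convergent case -/

theorem sums_tsum {x : ℕ → ℝ} (hx : Summable x) (A : Set ℕ) :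
    Sums x A (∑' n, A.indicator x n) := (hx.indicator A).hasSum.tendsto_sum_nat

/-- The total mass of the tail. -/
noncomputable def tail (x : ℕ → ℝ) (m : ℕ) : ℝ := ∑' n, |x (n + m)|

theorem tail_tendsto (x : ℕ → ℝ) : Tendsto (tail x) atTop (𝓝 0) :=
  tendsto_sum_nat_add (fun n => |x n|)

theorem exists_tail_lt (x : ℕ → ℝ) {ε : ℝ} (hε : 0 < ε) : ∃ m, tail x m < ε :=
  ((tail_tendsto x).eventually (gt_mem_nhds hε)).exists

theorem tail_eq {x : ℕ → ℝ} (hx : Summable fun n => |x n|) (m : ℕ) :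
    ∑' n, {n | m ≤ n}.indicator (fun n => |x n|) n = tail x m := by
  rw [tail, ← Summable.sum_add_tsum_nat_add m (hx.indicator {n | m ≤ n})]
  have h1 : ∑ n ∈ Finset.range m, {n | m ≤ n}.indicator (fun n => |x n|) n = 0 := by
    apply Finset.sum_eq_zero
    intro n hn
    apply Set.indicator_of_notMem
    have := Finset.mem_range.1 hn
    show ¬ m ≤ n
    omega
  rw [h1, zero_add]
  apply tsum_congr
  intro n
  rw [Set.indicator_of_mem]
  show m ≤ n + m
  omega

/-- The least element of the set of tail sums. -/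
noncomputable def low (x : ℕ → ℝ) (m : ℕ) : ℝ := ∑' n, {n | m ≤ n ∧ x n < 0}.indicator x n

theorem low_mem {x : ℕ → ℝ} (hx : Summable x) (m : ℕ) : low x m ∈ P Set.univ x m :=
  ⟨{n | m ≤ n ∧ x n < 0}, trivial, fun _ hn => hn.1, sums_tsum hx _⟩

theorem P_bounds {x : ℕ → ℝ} (hx : Summable fun n => |x n|) {m : ℕ} {t : ℝ}
    (ht : t ∈ P Set.univ x m) : low x m ≤ t ∧ t ≤ low x m + tail x m := by
  have hxs : Summable x := hx.of_abs
  obtain ⟨A, -, hAm, hA⟩ := ht
  have ht : t = ∑' n, A.indicator x n := hA.unique (sums_tsum hxs A)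
  have h1 : ∀ n, {n | m ≤ n ∧ x n < 0}.indicator x n ≤ A.indicator x n := by
    intro n
    by_cases hn : n ∈ A
    · rw [Set.indicator_of_mem hn]
      by_cases hn2 : n ∈ {n | m ≤ n ∧ x n < 0}
      · rw [Set.indicator_of_mem hn2]
      · rw [Set.indicator_of_notMem hn2]
        by_contra hlt
        exact hn2 ⟨hAm n hn, not_le.1 hlt⟩
    · rw [Set.indicator_of_notMem hn]
      by_cases hn2 : n ∈ {n | m ≤ n ∧ x n < 0}
      · rw [Set.indicator_of_mem hn2]
        exact hn2.2.le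
      · rw [Set.indicator_of_notMem hn2]
  have h2 : ∀ n, A.indicator x n ≤ {n | m ≤ n ∧ x n < 0}.indicator x n +
      {n | m ≤ n}.indicator (fun n => |x n|) n := by
    intro n
    by_cases hm : m ≤ n
    · rw [Set.indicator_of_mem (show n ∈ {n | m ≤ n} from hm)]
      by_cases hn2 : x n < 0
      · rw [Set.indicator_of_mem (show n ∈ {n | m ≤ n ∧ x n < 0} from ⟨hm, hn2⟩), abs_of_neg hn2,
          add_neg_cancel]
        by_cases hn : n ∈ A
        · rw [Set.indicator_of_mem hn]; exact hn2.le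
        · rw [Set.indicator_of_notMem hn]
      · rw [Set.indicator_of_notMem (fun h : n ∈ {n | m ≤ n ∧ x n < 0} => hn2 h.2),
          abs_of_nonneg (not_lt.1 hn2), zero_add]
        by_cases hn : n ∈ A
        · rw [Set.indicator_of_mem hn]
        · rw [Set.indicator_of_notMem hn]; exact not_lt.1 hn2
    · rw [Set.indicator_of_notMem (fun h : n ∈ A => hm (hAm n h)),
        Set.indicator_of_notMem (fun h : n ∈ {n | m ≤ n ∧ x n < 0} => hm h.1),
        Set.indicator_of_notMem (fun h : n ∈ {n | m ≤ n} => hm h), zero_add]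
  constructor
  · rw [ht, low]
    exact (hxs.indicator _).tsum_le_tsum h1 (hxs.indicator _)
  · rw [ht, low, ← tail_eq hx, ← (hxs.indicator _).tsum_add (hx.indicator _)]
    exact (hxs.indicator _).tsum_le_tsum h2 ((hxs.indicator _).add (hx.indicator _))

theorem P_dist {x : ℕ → ℝ} (hx : Summable fun n => |x n|) {m : ℕ} {t u : ℝ}
    (ht : t ∈ P Set.univ x m) (hu : u ∈ P Set.univ x m) : |t - u| ≤ tail x m := by
  have h1 := P_bounds hx ht
  have h2 := P_bounds hx hu
  rw [abs_le]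
  constructor <;> linarith [h1.1, h1.2, h2.1, h2.2]

theorem P_compact {x : ℕ → ℝ} (hx : Summable fun n => |x n|) (m : ℕ) :
    IsCompact (P Set.univ x m) := by
  have hxs : Summable x := hx.of_abs
  have h1 : P Set.univ x m = Set.range fun b : ℕ → Bool =>
      ∑' n, (if b n = true ∧ m ≤ n then x n else 0) := by
    ext t
    constructor
    · rintro ⟨A, -, hAm, hA⟩
      classical
      refine ⟨fun n => decide (n ∈ A), ?_⟩
      rw [hA.unique (sums_tsum hxs A)]
      apply tsum_congr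
      intro n
      by_cases hn : n ∈ A
      · simp [hn, hAm n hn]
      · simp [hn]
    · rintro ⟨b, rfl⟩
      refine ⟨{n | b n = true ∧ m ≤ n}, trivial, fun n hn => hn.2, ?_⟩
      have := sums_tsum hxs {n | b n = true ∧ m ≤ n}
      convert this using 1
      show ∑' n, (if b n = true ∧ m ≤ n then x n else 0) = _
      apply tsum_congr
      intro n
      by_cases h : b n = true ∧ m ≤ n
      · rw [if_pos h, Set.indicator_of_mem (show n ∈ {n | b n = true ∧ m ≤ n} from h)]
      · rw [if_neg h, Set.indicator_of_notMem (show n ∉ {n | b n = true ∧ m ≤ n} from h)]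
  rw [h1]
  apply isCompact_range
  apply continuous_tsum (u := fun n => |x n|)
  · intro n
    by_cases hm : m ≤ n
    · simp only [hm, and_true]
      have h2 : Continuous (fun c : Bool => if c = true then x n else (0 : ℝ)) :=
        continuous_of_discreteTopology
      exact h2.comp (continuous_apply n)
    · simp only [hm, and_false, if_false]
      exact continuous_const
  · exact hx
  · intro n b
    split_ifs
    · exact le_rfl
    · simp

/-- The case where the achievement set has an interior point. -/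
theorem core_interior {J : Set (Set ℕ)} (hJ : Good J) (x : ℕ → ℝ) (hx : Summable fun n => |x n|)
    (hint : (interior (P Set.univ x 0)).Nonempty) {V : Set ℝ} (hV : IsOpen V)
    (hne : (V ∩ P Set.univ x 0).Nonempty) (hGV : RM (P Set.univ x 0) (P J x 0 ∩ V)) :
    RM (P Set.univ x 0) (P J x 0) := by
  have hclosed : ∀ m, IsClosed (P Set.univ x m) := fun m => (P_compact hx m).isClosed
  -- every set of tail sums has an interior point
  have hintm : ∀ m, (interior (P Set.univ x m)).Nonempty := by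
    intro m
    by_contra hemp
    rw [Set.not_nonempty_iff_eq_empty] at hemp
    have h1 : ∀ F : Finset ℕ, IsMeagre ((fun t => ∑ n ∈ F, x n + t) '' P Set.univ x m) := by
      intro F
      apply IsNowhereDense.isMeagre
      have hcl : IsClosed ((fun t => ∑ n ∈ F, x n + t) '' P Set.univ x m) :=
        (Homeomorph.addLeft (∑ n ∈ F, x n)).isClosedMap _ (hclosed m)
      rw [hcl.isNowhereDense_iff]
      have := (Homeomorph.addLeft (∑ n ∈ F, x n)).image_interior (P Set.univ x m)
      rw [hemp, Set.image_empty] at this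
      exact this.symm
    have h2 : IsMeagre (⋃ F : Finset ℕ, (fun t => ∑ n ∈ F, x n + t) '' P Set.univ x m) :=
      isMeagre_iUnion h1
    have h3 : interior (P Set.univ x 0) ⊆
        ⋃ F : Finset ℕ, (fun t => ∑ n ∈ F, x n + t) '' P Set.univ x m := by
      intro s hs
      obtain ⟨F, -, hF⟩ := P_split good_univ x m (interior_subset hs)
      exact Set.mem_iUnion.2 ⟨F, _, hF, by simp⟩
    exact not_isMeagre_of_isOpen isOpen_interior hint (h2.mono h3)
  have hreg : P Set.univ x 0 ⊆ closure (interior (P Set.univ x 0)) := by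
    intro p hp
    rw [Metric.mem_closure_iff]
    intro ε hε
    obtain ⟨m, hm⟩ := exists_tail_lt x hε
    obtain ⟨F, hF, hpF⟩ := P_split good_univ x m hp
    obtain ⟨z, hz⟩ := hintm m
    refine ⟨∑ n ∈ F, x n + z, ?_, ?_⟩
    · have h1 : (fun t => ∑ n ∈ F, x n + t) '' interior (P Set.univ x m) ⊆
          interior (P Set.univ x 0) := by
        apply interior_maximal
        · rintro _ ⟨t, ht, rfl⟩
          exact P_join good_univ x hF (interior_subset ht)
        · exact (Homeomorph.addLeft (∑ n ∈ F, x n)).isOpenMap _ isOpen_interior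
      exact h1 ⟨z, hz, rfl⟩
    · rw [Real.dist_eq]
      have h2 := P_dist hx hpF (interior_subset hz)
      have h3 : p - (∑ n ∈ F, x n + z) = p - ∑ n ∈ F, x n - z := by ring
      rw [h3]
      exact lt_of_le_of_lt h2 hm
  obtain ⟨p, hpV, hpK⟩ := hne
  obtain ⟨ε, hε, hball⟩ := Metric.isOpen_iff.1 hV p hpV
  obtain ⟨m, hm⟩ := exists_tail_lt x hε
  obtain ⟨F, hF, hpF⟩ := P_split good_univ x m hpK
  have h1 : (fun t => ∑ n ∈ F, x n + t) '' P J x m ⊆ P J x 0 ∩ V := by
    rintro _ ⟨t, ht, rfl⟩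
    refine ⟨P_join hJ x hF ht, hball ?_⟩
    rw [Metric.mem_ball, Real.dist_eq]
    have h2 := P_dist hx (P_subset_univ J x m ht) hpF
    have h3 : ∑ n ∈ F, x n + t - p = t - (p - ∑ n ∈ F, x n) := by ring
    rw [h3]
    exact lt_of_le_of_lt h2 hm
  have h2 : RM Set.univ ((fun t => ∑ n ∈ F, x n + t) '' P J x m) :=
    (hGV.mono h1).to_univ (hclosed 0) (h1.trans (Set.inter_subset_left.trans
      (P_subset_univ J x 0)))
  have h3 : RM Set.univ (P J x m) := by
    apply (h2.translate (-(∑ n ∈ F, x n))).mono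
    intro t ht
    exact ⟨_, ⟨t, ht, rfl⟩, by simp⟩
  apply RM.of_univ hreg
  have h4 : RM Set.univ (⋃ F : Finset ℕ, (fun t => ∑ n ∈ F, x n + t) '' P J x m) :=
    RM.iUnion fun F => h3.translate _
  apply h4.mono
  intro s hs
  obtain ⟨F, -, hF⟩ := P_split hJ x m hs
  exact Set.mem_iUnion.2 ⟨F, _, hF, by simp⟩

/-- Points of a closed nowhere dense set with a gap immediately to their left are dense. -/
theorem gap_dense {K : Set ℝ} (hK : IsClosed K) (hint : interior K = ∅) {W : Set ℝ}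
    (hW : IsOpen W) (hne : (W ∩ K).Nonempty) :
    ∃ β ∈ W ∩ K, ∃ δ > 0, ∀ s ∈ K, s < β → s ≤ β - δ := by
  obtain ⟨p, hpW, hpK⟩ := hne
  obtain ⟨ε, hε, hball⟩ := Metric.isOpen_iff.1 hW p hpW
  obtain ⟨y, hy, hyK⟩ : ∃ y ∈ Set.Ioo (p - ε) p, y ∉ K := by
    by_contra hcon
    push Not at hcon
    have h1 : Set.Ioo (p - ε) p ⊆ interior K := interior_maximal hcon isOpen_Ioo
    rw [hint] at h1
    exact h1 (show p - ε / 2 ∈ Set.Ioo (p - ε) p from ⟨by linarith, by linarith⟩)
  obtain ⟨β, hβ, hβmin⟩ := (isCompact_Icc (a := y) (b := p)).inter_right hK |>.exists_isLeast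
    ⟨p, ⟨hy.2.le, le_rfl⟩, hpK⟩
  have hyβ : y < β := lt_of_le_of_ne hβ.1.1 (fun h => hyK (h ▸ hβ.2))
  refine ⟨β, ⟨hball ?_, hβ.2⟩, β - y, by linarith, ?_⟩
  · rw [Metric.mem_ball, Real.dist_eq, abs_lt]
    have := hβ.1.2
    constructor <;> linarith [hy.1]
  · intro s hs hsβ
    by_contra hlt
    have : β ≤ s := hβmin ⟨⟨by linarith, by linarith [hβ.1.2]⟩, hs⟩
    linarith

/-- Local structure at a point with a gap to its left. -/
theorem germ {J : Set (Set ℕ)} (hJ : Good J) (x : ℕ → ℝ) (hx : Summable fun n => |x n|)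
    {β δ : ℝ} (hβ : β ∈ P Set.univ x 0) (hδ : ∀ s ∈ P Set.univ x 0, s < β → s ≤ β - δ) {m : ℕ}
    (hm : tail x m < δ) :
    ∃ ρ > 0, ∀ s, |s| < ρ → (β + s ∈ P J x 0 ↔ low x m + s ∈ P J x m) := by
  have hxs : Summable x := hx.of_abs
  have key : ∀ F ∈ (Finset.range m).powerset, β - ∑ n ∈ F, x n ∈ P Set.univ x m →
      β = ∑ n ∈ F, x n + low x m := by
    intro F hF hmem
    have h1 := P_bounds hx hmem
    have h2 := P_join good_univ x hF (low_mem hxs m)
    rcases (show ∑ n ∈ F, x n + low x m ≤ β by linarith [h1.1]).eq_or_lt with h | h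
    · exact h.symm
    · have := hδ _ h2 h
      linarith [h1.2]
  obtain ⟨F0, hF0, hF0m⟩ := P_split good_univ x m hβ
  have hβ0 := key F0 hF0 hF0m
  have hev : ∀ᶠ s in 𝓝 (0 : ℝ), ∀ F ∈ (Finset.range m).powerset,
      (∑ n ∈ F, x n = ∑ n ∈ F0, x n ∨ β + s - ∑ n ∈ F, x n ∉ P Set.univ x m) := by
    rw [Filter.eventually_all_finset]
    intro F hF
    by_cases h : ∑ n ∈ F, x n = ∑ n ∈ F0, x n
    · exact Filter.Eventually.of_forall fun _ => Or.inl h
    · have h1 : β - ∑ n ∈ F, x n ∉ P Set.univ x m := by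
        intro hmem
        have := key F hF hmem
        apply h
        linarith
      have h2 : IsOpen (P Set.univ x m)ᶜ := (P_compact hx m).isClosed.isOpen_compl
      have h3 : Tendsto (fun s : ℝ => β + s - ∑ n ∈ F, x n) (𝓝 0) (𝓝 (β - ∑ n ∈ F, x n)) := by
        have : Continuous fun s : ℝ => β + s - ∑ n ∈ F, x n := by fun_prop
        have h4 := this.tendsto 0
        rwa [add_zero] at h4
      filter_upwards [h3.eventually (h2.mem_nhds h1)] with s hs
      exact Or.inr hs
  obtain ⟨ρ, hρ, hball⟩ := Metric.eventually_nhds_iff.1 hev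
  refine ⟨ρ, hρ, fun s hs => ⟨fun h => ?_, fun h => ?_⟩⟩
  · obtain ⟨F, hF, hFm⟩ := P_split hJ x m h
    rcases hball (show dist s 0 < ρ by rwa [Real.dist_eq, sub_zero]) F hF with h1 | h1
    · rw [h1, hβ0] at hFm
      have : ∑ n ∈ F0, x n + low x m + s - ∑ n ∈ F0, x n = low x m + s := by ring
      rwa [this] at hFm
    · exact absurd (P_subset_univ J x m hFm) h1
  · have := P_join hJ x hF0 h
    rw [hβ0]
    have h2 : ∑ n ∈ F0, x n + low x m + s = ∑ n ∈ F0, x n + (low x m + s) := by ring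
    rwa [h2]

/-- The case where the achievement set is nowhere dense. -/
theorem core_nowhere {J : Set (Set ℕ)} (hJ : Good J) (x : ℕ → ℝ) (hx : Summable fun n => |x n|)
    (hint : interior (P Set.univ x 0) = ∅) {V : Set ℝ} (hV : IsOpen V)
    (hne : (V ∩ P Set.univ x 0).Nonempty) (hGV : RM (P Set.univ x 0) (P J x 0 ∩ V)) :
    RM (P Set.univ x 0) (P J x 0) := by
  have hcl : IsClosed (P Set.univ x 0) := (P_compact hx 0).isClosed
  obtain ⟨β, ⟨hβV, hβK⟩, δ, hδ, hgap⟩ := gap_dense hcl hint hV hne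
  obtain ⟨ρV, hρV, hballV⟩ := Metric.isOpen_iff.1 hV β hβV
  apply RM.of_local
  intro W hW hWne
  obtain ⟨β', ⟨hβW, hβK'⟩, δ', hδ', hgap'⟩ := gap_dense hcl hint hW hWne
  refine ⟨β', ⟨hβW, hβK'⟩, ?_⟩
  obtain ⟨m, hm⟩ := exists_tail_lt x (lt_min hδ hδ')
  have hm1 := lt_of_lt_of_le hm (min_le_left _ _)
  have hm2 := lt_of_lt_of_le hm (min_le_right _ _)
  obtain ⟨ρ1, hρ1, h1⟩ := germ good_univ x hx hβK hgap hm1
  obtain ⟨ρ2, hρ2, h2⟩ := germ good_univ x hx hβK' hgap' hm2
  obtain ⟨ρ3, hρ3, h3⟩ := germ hJ x hx hβK hgap hm1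
  obtain ⟨ρ4, hρ4, h4⟩ := germ hJ x hx hβK' hgap' hm2
  set ρ := min ρV (min (min ρ1 ρ2) (min ρ3 ρ4)) with hρdef
  have hρ : 0 < ρ := by
    rw [hρdef]
    exact lt_min hρV (lt_min (lt_min hρ1 hρ2) (lt_min hρ3 hρ4))
  have hle : ρ ≤ ρV ∧ ρ ≤ ρ1 ∧ ρ ≤ ρ2 ∧ ρ ≤ ρ3 ∧ ρ ≤ ρ4 := by
    rw [hρdef]
    refine ⟨min_le_left _ _, ?_, ?_, ?_, ?_⟩
    · exact (min_le_right _ _).trans ((min_le_left _ _).trans (min_le_left _ _))
    · exact (min_le_right _ _).trans ((min_le_left _ _).trans (min_le_right _ _))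
    · exact (min_le_right _ _).trans ((min_le_right _ _).trans (min_le_left _ _))
    · exact (min_le_right _ _).trans ((min_le_right _ _).trans (min_le_right _ _))
  have hK : ∀ s, |s| < ρ → (β' + s ∈ P Set.univ x 0 ↔ β + s ∈ P Set.univ x 0) := fun s hs => by
    rw [h2 s (by linarith [hle.2.2.1]), h1 s (by linarith [hle.2.1])]
  have hG : ∀ s, |s| < ρ → (β' + s ∈ P J x 0 ↔ β + s ∈ P J x 0) := fun s hs => by
    rw [h4 s (by linarith [hle.2.2.2.2]), h3 s (by linarith [hle.2.2.2.1])]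
  have h5 : RM (P Set.univ x 0) (P J x 0 ∩ Set.Ioo (β - ρ) (β + ρ)) := by
    apply hGV.mono
    rintro t ⟨htG, ht1, ht2⟩
    refine ⟨htG, hballV ?_⟩
    rw [Metric.mem_ball, Real.dist_eq, abs_lt]
    constructor <;> linarith [hle.1]
  refine ⟨ρ / 2, by linarith, (RM.local_translate hρ hK hG h5).mono ?_⟩
  rintro t ⟨htG, ht1, ht2⟩
  exact ⟨htG, ht1.le, ht2.le⟩

/-- The core statement: if the ideal achievement set is relatively meager somewhere in the
achievement set, then it is relatively meager. -/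
theorem core {I : Set (Set ℕ)} (hI : IsIdeal I) (x : ℕ → ℝ) (hconv : ∃ s, Sums x Set.univ s)
    {V : Set ℝ} (hV : IsOpen V) (hne : (V ∩ P Set.univ x 0).Nonempty)
    (hGV : RM (P Set.univ x 0) (P I x 0 ∩ V)) : RM (P Set.univ x 0) (P I x 0) := by
  by_cases hx : Summable fun n => |x n|
  · by_cases hint : (interior (P Set.univ x 0)).Nonempty
    · exact core_interior (good_ideal hI) x hx hint hV hne hGV
    · exact core_nowhere (good_ideal hI) x hx (Set.not_nonempty_iff_eq_empty.1 hint) hV hne hGV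
  · have hfull := full_of_not_summable x hconv hx
    rw [hfull] at hGV hne ⊢
    exact core_line (good_ideal hI) x hfull hV (hne.mono Set.inter_subset_left) hGV

/-- If `∑ x n` converges and the ideal achievement set has the Baire property in the achievement
set, then it is meager or comeager in the achievement set. -/
theorem result (I : Set (Set ℕ)) (hI : IsIdeal I) (x : ℕ → ℝ) (hx : ∃ s, Sums x Set.univ s)
    (hB : BaireMeasurableSet ((↑) ⁻¹' idealAchievement I x : Set (achievement x))) :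
    IsMeagre ((↑) ⁻¹' idealAchievement I x : Set (achievement x)) ∨
      ((↑) ⁻¹' idealAchievement I x : Set (achievement x)) ∈ residual (achievement x) := by
  by_contra hcon
  push Not at hcon
  obtain ⟨hnm, hnc⟩ := hcon
  obtain ⟨U, hU, hGU⟩ := hB.residualEq_isOpen
  set G : Set (achievement x) := (↑) ⁻¹' idealAchievement I x with hG
  by_cases hVe : (interior Uᶜ).Nonempty
  · obtain ⟨W, hW, hWV⟩ := isOpen_induced_iff.1 (isOpen_interior (s := Uᶜ))
    apply hnm
    rw [hG, isMeagre_iff_RM]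
    have hGK : idealAchievement I x ⊆ achievement x := by
      rintro s ⟨A, -, hA⟩
      exact ⟨A, hA⟩
    rw [Set.inter_eq_self_of_subset_left hGK, idealAchievement_eq, achievement_eq]
    apply core hI x hx hW
    · obtain ⟨z, hz⟩ := hVe
      rw [← achievement_eq]
      refine ⟨z, ?_, z.2⟩
      rw [← hWV] at hz
      exact hz
    · rw [← achievement_eq, ← idealAchievement_eq]
      have h1 : IsMeagre ((↑) ⁻¹' (idealAchievement I x ∩ W) : Set (achievement x)) := by
        have h2 : {z : achievement x | (z ∈ G) = (z ∈ U)} ∈ residual (achievement x) := hGU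
        show (_)ᶜ ∈ residual (achievement x)
        filter_upwards [h2] with z hz hz2
        have h3 : z ∈ interior Uᶜ := by rw [← hWV]; exact hz2.2
        have h4 : z ∉ U := interior_subset h3
        have h5 : z ∈ G := hz2.1
        have hz' : (z ∈ G) = (z ∈ U) := hz
        rw [hz'] at h5
        exact h4 h5
      rw [isMeagre_iff_RM] at h1
      apply h1.mono
      rintro s ⟨hs1, hs2⟩
      exact ⟨⟨hs1, hs2⟩, hGK hs1⟩
  · apply hnc
    rw [Set.not_nonempty_iff_eq_empty, interior_compl, Set.compl_empty_iff] at hVe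
    have h1 : U ∈ residual (achievement x) :=
      residual_of_dense_open hU (dense_iff_closure_eq.2 hVe)
    filter_upwards [h1, hGU] with z hz1 hz2
    have h3 : (z ∈ G) = (z ∈ U) := hz2
    rw [h3]
    exact hz1

end Pool.Agent.Results.MP_dc2775_an.CategoryDichotomy
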